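import Pool.Agent.X155.BurnQuot

/-!
# MP_fd686d_al (Q1): a locally compact hereditarily minimal group with nontrivial centre which is
not hereditarily totally minimal
-/

set_option autoImplicit false

namespace Pool.Agent.Results.MP_fd686d_al.NotTotallyMinimal

open Pool.Agent.TH54.BU

/-- `G` is a minimal topological group: Hausdorff, and no Hausdorff group topology on `G` is
strictly coarser than the given one. (For topologies, `t ≤ σ` means that `σ` is coarser
than `t`.) -/
def IsMinimalGroup (G : Type) [Group G] [t : TopologicalSpace G] : Prop :=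
  IsTopologicalGroup G ∧ T2Space G ∧
    ∀ σ : TopologicalSpace G, @IsTopologicalGroup G σ _ → @T2Space G σ → t ≤ σ → σ = t

/-- the quotient of `G` by each closed normal subgroup is minimal -/
def TotallyMinimal (G : Type) [Group G] [TopologicalSpace G] : Prop :=
  ∀ (N : Subgroup G) [N.Normal], IsClosed (N : Set G) → IsMinimalGroup (G ⧸ N)

/-- every subgroup of `G`, with the subspace topology, is minimal -/
def HereditarilyMinimal (G : Type) [Group G] [TopologicalSpace G] : Prop :=
  ∀ H : Subgroup G, IsMinimalGroup H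

/-- every subgroup of `G`, with the subspace topology, is totally minimal -/
def HereditarilyTotallyMinimal (G : Type) [Group G] [TopologicalSpace G] : Prop :=
  ∀ H : Subgroup G, TotallyMinimal H

/-- There is a locally compact Hausdorff topological group `G` with nontrivial centre which is
hereditarily minimal but not hereditarily totally minimal; `G` itself is not totally minimal. It
exists for every large prime `p`, with centre open and topologically isomorphic to `ℤ_p`. -/
theorem result : ∃ p0 : ℕ, ∀ (p : ℕ) [Fact p.Prime], p0 ≤ p →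
    ∃ (G : Type) (_ : Group G) (_ : TopologicalSpace G),
      IsTopologicalGroup G ∧ T2Space G ∧ LocallyCompactSpace G ∧
      Subgroup.center G ≠ ⊥ ∧ IsOpen (Subgroup.center G : Set G) ∧
      Nonempty (Multiplicative ℤ_[p] ≃ₜ* Subgroup.center G) ∧
      HereditarilyMinimal G ∧ ¬ TotallyMinimal G ∧ ¬ HereditarilyTotallyMinimal G := by
  obtain ⟨p0, h⟩ := Pool.Agent.X155.BQ.exists_group
  refine ⟨p0, fun p hp hle => ?_⟩
  obtain ⟨M, hG, hTop, hTG, hT2, hopen, ⟨i⟩, ⟨e⟩, hmin, hlc, hne, hcomm⟩ := h p hle
  have hHM : HereditarilyMinimal M := fun H =>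
    ⟨inferInstance, inferInstance, fun σ h1 h2 h3 => hmin H σ h1 h2 h3⟩
  have hcl : IsClosed (Subgroup.center M : Set M) :=
    Subgroup.isClosed_of_isOpen _ hopen
  refine ⟨M, hG, hTop, hTG, hT2, hlc, hne, hopen, ⟨i⟩, hHM, ?_, ?_⟩
  · intro hT
    obtain ⟨-, -, h3⟩ := hT (Subgroup.center M) hcl
    have hdisc : DiscreteTopology (M ⧸ Subgroup.center M) := QuotientGroup.discreteTopology hopen
    obtain ⟨σ, h4, h5, h6⟩ := Pool.Agent.X155.BQ.exists_top e hcomm
    apply h6
    rw [h3 σ h4 h5 (by rw [hdisc.eq_bot]; exact bot_le), hdisc.eq_bot]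
  · intro hT
    let ψ : (⊤ : Subgroup M) →* FreeGroup ℕ ⧸ powSub (FreeGroup ℕ) p :=
      (e.toMonoidHom.comp (QuotientGroup.mk' (Subgroup.center M))).comp (⊤ : Subgroup M).subtype
    have hψs : Function.Surjective ψ := by
      intro y
      obtain ⟨a, ha⟩ := QuotientGroup.mk_surjective (e.symm y)
      refine ⟨⟨a, trivial⟩, ?_⟩
      change e (QuotientGroup.mk a) = y
      rw [ha, MulEquiv.apply_symm_apply]
    have hset : ((ψ.ker : Subgroup (⊤ : Subgroup M)) : Set (⊤ : Subgroup M))
        = Subtype.val ⁻¹' (Subgroup.center M : Set M) := by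
      ext x
      rw [SetLike.mem_coe, MonoidHom.mem_ker, Set.mem_preimage, SetLike.mem_coe,
        ← QuotientGroup.eq_one_iff (N := Subgroup.center M)]
      change e (QuotientGroup.mk (x : M)) = 1 ↔ _
      rw [map_eq_one_iff e e.injective]
    have hop2 : IsOpen ((ψ.ker : Subgroup (⊤ : Subgroup M)) : Set (⊤ : Subgroup M)) := by
      rw [hset]
      exact hopen.preimage continuous_subtype_val
    have hcl2 : IsClosed ((ψ.ker : Subgroup (⊤ : Subgroup M)) : Set (⊤ : Subgroup M)) := by
      rw [hset]
      exact hcl.preimage continuous_subtype_val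
    obtain ⟨-, -, h3⟩ := hT ⊤ ψ.ker hcl2
    have hdisc : DiscreteTopology ((⊤ : Subgroup M) ⧸ ψ.ker) :=
      QuotientGroup.discreteTopology hop2
    obtain ⟨σ, h4, h5, h6⟩ := Pool.Agent.X155.BQ.exists_top
      (QuotientGroup.quotientKerEquivOfSurjective ψ hψs) hcomm
    apply h6
    rw [h3 σ h4 h5 (by rw [hdisc.eq_bot]; exact bot_le), hdisc.eq_bot]

end Pool.Agent.Results.MP_fd686d_al.NotTotallyMinimal
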